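import Pool.Agent.Y607.PD.C

/-!
# MP_3a8d2e_lc: #PolyaOrbits is complete for `#P` under AP-reducibility already for nilpotent groups
of class two with orbits of at most four points

Strictly stronger form of the starting theorem `APComplete` (all permutation groups), for every
alphabet size `k ≥ 2`:

* the restriction of #PolyaOrbits to block-dihedral instances (every generator preserves the
  blocks `{4 q, ..., 4 q + 3}` and the pairs `{2 q, 2 q + 1}`) is in `#P` and is hard for `#P` under
  AP-reducibility;
* the hardness even holds for the block-dihedral instances whose group is nilpotent of class at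
  most two, of exponent dividing four, with orbits of at most four points: every function with
  values of polynomially many bits which agrees with #PolyaOrbits on these instances is hard.

Definitions: `polya`, `APReduces` in `Pool/Agent/H49R2/PY/Defs.lean`; `Inst`, `Valid` in
`Pool/Agent/Y607/PY/Defs.lean`; `Small` in `Pool/Agent/Y607/PD/B.lean`; `Dih`, `polyaD` in
`Pool/Agent/Y607/PD/C.lean`; `SharpP`, `strFn` in `Pool/Agent/H527R2/SharpP.lean`.
The reduction is the one of the starting library.
-/

namespace Pool.Agent.Results.MP_3a8d2e_lc.NilpotentSmallOrbits

open Pool.Agent.NPC Pool.Agent.NPC.Cnt Pool.Agent.H49R2.PY Pool.Agent.H49R2.PY.PD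
open Pool.Agent.Y607.PY (Valid Inst)

/-- **Main theorem.** Let `k ≥ 2`.
(1) #PolyaOrbits with alphabet size `k`, restricted to block-dihedral instances (with value `0`
elsewhere), is in `#P`, and every function in `#P` is AP-reducible to it.
(2) Let `g` be a function on the instances, with values of polynomially many bits, which agrees
with #PolyaOrbits on all valid block-dihedral instances whose group is nilpotent of class at most
two, has exponent dividing four, and has orbits of at most four points.  Then every function in
`#P` is AP-reducible to `g`. -/
theorem result (k : ℕ) (hk : 2 ≤ k) :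
    (SharpP (strFn (polyaD k)) ∧
      ∀ h : List Bool → ℕ, SharpP h → APReduces h (strFn (polyaD k))) ∧
    ∀ g : Inst → ℕ,
      (∀ I, Valid I → Dih I → Small I.1.length I.2 → g I = polya k I) →
      (∃ q : Polynomial ℕ, ∀ I, g I ≤ 2 ^ q.eval (sz I)) →
      ∀ h : List Bool → ℕ, SharpP h → APReduces h (strFn g) :=
  ⟨⟨sharpP_polyaD k, apHard_polyaD hk⟩, fun g hg hb => apHard' hk g hg hb⟩

end Pool.Agent.Results.MP_3a8d2e_lc.NilpotentSmallOrbits
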